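import Pool.Agent.H70.GS.Targets
import Pool.Agent.H59.NB.BBV

/-!
# Module BBW and BBC: the hybrid argument for all sets of outcomes
-/

set_option autoImplicit false

namespace Pool.Agent.H3.GS.BBW

open Finset Pool.Agent.H70.OQ Pool.Agent.H6.NB Pool.Agent.H70.GS
open Pool.Agent.H59.NB.BBV (ev dw norm_state norm_state_sub_sq sum_dw abs_sum_sub)

theorem bbw : T_BBW := by
  intro X _ _ _ Q O O' K hK
  have hX : (0 : ℝ) < Fintype.card X := by exact_mod_cast Fintype.card_pos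
  have h1 : ∑ x, ‖ev (Q.state (O' x) Q.T - Q.state O Q.T)‖ ^ 2 ≤ 4 * (Q.T : ℝ) ^ 2 * K := by
    calc ∑ x, ‖ev (Q.state (O' x) Q.T - Q.state O Q.T)‖ ^ 2
        ≤ ∑ x, 4 * (Q.T : ℝ) * ∑ s ∈ range Q.T, dw Q O (O' x) (Q.state O s) :=
          Finset.sum_le_sum fun x _ => norm_state_sub_sq Q O (O' x) Q.T
      _ = 4 * (Q.T : ℝ) * ∑ s ∈ range Q.T, ∑ x, dw Q O (O' x) (Q.state O s) := by
          rw [← Finset.mul_sum, Finset.sum_comm]
      _ ≤ 4 * (Q.T : ℝ) * ∑ s ∈ range Q.T, (K : ℝ) := by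
          refine mul_le_mul_of_nonneg_left ?_ (by positivity)
          refine Finset.sum_le_sum fun s _ => ?_
          have h := sum_dw X Q O O' K hK (Q.state O s)
          rw [norm_state, one_pow, mul_one] at h
          exact h
      _ = 4 * (Q.T : ℝ) ^ 2 * K := by
          rw [Finset.sum_const, Finset.card_range, nsmul_eq_mul]
          ring
  obtain ⟨x, _, hx⟩ := Finset.exists_le_of_sum_le (s := (univ : Finset X))
    (f := fun x => ‖ev (Q.state (O' x) Q.T - Q.state O Q.T)‖ ^ 2)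
    (g := fun _ => 4 * (Q.T : ℝ) ^ 2 * K / Fintype.card X) Finset.univ_nonempty (by
      rw [Finset.sum_const, Finset.card_univ, nsmul_eq_mul]
      rw [mul_div_cancel₀ _ hX.ne']
      exact h1)
  refine ⟨x, fun A => (abs_sum_sub A _ _ (norm_state Q (O' x) _) (norm_state Q O _)).trans ?_⟩
  have h2 : ‖ev (Q.state (O' x) Q.T - Q.state O Q.T)‖ ≤ 2 * Q.T * √(K / Fintype.card X) := by
    refine abs_le_of_sq_le_sq' ?_ (by positivity) |>.2
    rw [mul_pow, Real.sq_sqrt (by positivity)]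
    refine hx.trans (le_of_eq ?_)
    ring
  calc 2 * ‖ev (Q.state (O' x) Q.T - Q.state O Q.T)‖ ≤ 2 * (2 * Q.T * √(K / Fintype.card X)) :=
        mul_le_mul_of_nonneg_left h2 (by norm_num)
    _ = 4 * Q.T * √(K / Fintype.card X) := by ring

theorem bbc (h1 : T_BBW) : T_BBC := by
  classical
  intro X _ _ Q O O' K η hη hK
  have first : ∀ Z : Finset X, (∀ x ∈ Z, ∃ A : Finset Q.basis,
      η ≤ |∑ i ∈ A, ‖Q.state (O' x) Q.T i‖ ^ 2 - ∑ i ∈ A, ‖Q.state O Q.T i‖ ^ 2|) →
      (Z.card : ℝ) ≤ 16 * Q.T ^ 2 * K / η ^ 2 := by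
    intro Z hZ
    rcases Z.eq_empty_or_nonempty with h0 | h0
    · rw [h0, Finset.card_empty, Nat.cast_zero]
      positivity
    · obtain ⟨z0, hz0⟩ := h0
      have : Nonempty {x // x ∈ Z} := ⟨⟨z0, hz0⟩⟩
      obtain ⟨x, hx⟩ := h1 {x // x ∈ Z} Q O (fun x => O' x.1) K (by
        intro i w hw
        refine le_trans ?_ (hK i w hw)
        refine Finset.card_le_card_of_injOn (fun x => x.1) ?_ ?_
        · intro x hx
          simp only [Finset.coe_filter, Finset.mem_univ, true_and, Set.mem_ofPred_eq] at hx ⊢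
          exact hx
        · intro x _ y _ hxy
          exact Subtype.ext hxy)
      obtain ⟨A, hA⟩ := hZ x.1 x.2
      have h2 := hA.trans (hx A)
      have hc : Fintype.card {x // x ∈ Z} = Z.card := Fintype.card_coe Z
      rw [hc] at h2
      have hZ0 : (0 : ℝ) < Z.card := by exact_mod_cast Finset.card_pos.2 ⟨z0, hz0⟩
      have h3 : η ^ 2 ≤ (4 * Q.T * √(K / Z.card)) ^ 2 := pow_le_pow_left₀ hη.le h2 2
      rw [mul_pow, mul_pow, Real.sq_sqrt (by positivity)] at h3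
      rw [le_div_iff₀ (by positivity)]
      have h4 : 4 ^ 2 * (Q.T : ℝ) ^ 2 * (K / Z.card) = 16 * Q.T ^ 2 * K / Z.card := by ring
      rw [h4, le_div_iff₀ hZ0] at h3
      linarith
  refine ⟨first _ ?_, first _ ?_⟩
  · intro x hx
    exact (Finset.mem_filter.1 hx).2
  · intro x hx
    exact ⟨Q.acc, (Finset.mem_filter.1 hx).2⟩

end Pool.Agent.H3.GS.BBW
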