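import Pool.Agent.H70.GS.Targets

/-!
# Module BUX: short strings of the oracle depend only on short strings of the seed and short marks
-/

set_option autoImplicit false

namespace Pool.Agent.H3.GS.BUX

open Finset Pool.Agent.H70.OQ Pool.Agent.H6.NB Pool.Agent.H70.GS

theorem key_len (s : List Bool) : (key s).length = s.length + 2 := by
  unfold key
  simp

theorem key_inj {s s' : List Bool} (h : key s = key s') : s = s' := by
  unfold key at h
  exact (List.cons.inj (List.cons.inj h).2).2

/-- The answers agree if the short strings agree. -/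
theorem step (h1 : T_LAH) {dd : List Bool → ℕ} {prog : List Bool → List (List Bool) → DT}
    (hS : Smallv dd prog) {χ χ' O O' : List Bool → Bool} {s : List Bool}
    (h : ∀ w : List Bool, w.length ≤ s.length → O w = O' w ∧ χ w = χ' w) :
    (Ae dd prog χ s O ↔ Ae dd prog χ' s O') ∧ (accv dd prog s O ↔ accv dd prog s O') := by
  obtain ⟨hl, _⟩ := h1 dd prog hS
  have hlen : ∀ w : List Bool, w.length ^ 2 ≤ s.length → w.length ≤ s.length := by
    intro w hw
    refine le_trans ?_ hw
    nlinarith [Nat.zero_le w.length, Nat.le_self_pow (n := 2) (by norm_num) w.length]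
  refine ⟨?_, ?_⟩
  · unfold Ae
    apply hl s
    intro w hw
    obtain ⟨h2, h3⟩ := h w (hlen w hw)
    unfold er
    rw [h2, h3]
  · apply hl s
    intro w hw
    exact (h w (hlen w hw)).1

theorem bux (h1 : T_LAH) : T_BUX := by
  classical
  intro dd prog χ χ' σ σ' O O' l hS hB hB' hag
  have key1 : ∀ n : ℕ, ∀ w : List Bool, w.length = n → w.length ≤ l → O w = O' w := by
    intro n
    induction n using Nat.strong_induction_on with
    | _ n ih =>
      intro w hw hwl
      rw [hB w, hB' w, (hag w hwl).1]
      congr 1
      have h2 : (∃ s, w = key s ∧ Ae dd prog χ s O) ↔ (∃ s, w = key s ∧ Ae dd prog χ' s O') := by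
        constructor
        · rintro ⟨s, rfl, h3⟩
          rw [key_len] at hw hwl
          refine ⟨s, rfl, ((step h1 hS fun u hu => ⟨?_, ?_⟩).1).1 h3⟩
          · exact ih u.length (by omega) u rfl (by omega)
          · exact (hag u (by omega)).2
        · rintro ⟨s, rfl, h3⟩
          rw [key_len] at hw hwl
          refine ⟨s, rfl, ((step h1 hS fun u hu => ⟨?_, ?_⟩).1).2 h3⟩
          · exact ih u.length (by omega) u rfl (by omega)
          · exact (hag u (by omega)).2
      exact decide_eq_decide.2 h2
  have key2 : ∀ w : List Bool, w.length ≤ l → O w = O' w := fun w hw => key1 _ w rfl hw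
  refine ⟨key2, ?_⟩
  intro s hs
  exact step h1 hS fun u hu => ⟨key2 u (by omega), (hag u (by omega)).2⟩

end Pool.Agent.H3.GS.BUX
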