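import Pool.Agent.H70.GS.Targets

/-!
# Module MEH: the instances satisfy the hypotheses of the ideal world (coarse levels)
-/

set_option autoImplicit false

namespace Pool.Agent.H3.GS.MEH

open Finset Pool.Agent.H70.OQ Pool.Agent.H6.NB Pool.Agent.H70.GS

theorem meh (h1 : T_FMS) : T_MEH := by
  intro B Ω nn qb D lc S t d h hS P
  have hloc : ∀ s, LocG lc (lc s) (accH lc D P s) := by
    intro s T e e' he
    refine hS.low s _ _ fun c hc => ?_
    cases c with
    | cst b => rfl
    | bas a => rfl
    | key s' =>
      unfold vlH
      by_cases h0 : lc s' = 0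
      · simp only [if_pos h0]
      · simp only [if_neg h0]
        rcases hc with hc | hc
        · exact he s' hc
        · exact absurd hc h0
    | blk s' i v => rfl
  refine ⟨⟨hloc, hS.lt⟩, fun s => ⟨?_, hloc s⟩⟩
  have h2 := h1 (PosG B Ω nn qb) ((B ⊕ Ω) ⊕ Ω) S t 1 d (D s)
    (fun c y => vlH lc (fun b => y (.inl b)) (fun s => y (.inr s)) P c) (fun c => ?_) (hS.fm s)
  · rw [mul_one] at h2
    exact h2
  · cases c with
    | cst b => exact ⟨.leaf b, by simp [Pool.Agent.H68.AC.DT.depth], fun y => rfl⟩
    | bas a =>
      refine ⟨.node (.inl (.inl a)) (.leaf false) (.leaf true),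
        by simp [Pool.Agent.H68.AC.DT.depth], fun y => ?_⟩
      change cond (y (.inl (.inl a))) true false = y (.inl (.inl a))
      cases y (.inl (.inl a)) <;> rfl
    | key s' =>
      by_cases h0 : lc s' = 0
      · refine ⟨.node (.inl (.inr s')) (.leaf false) (.leaf true),
          by simp [Pool.Agent.H68.AC.DT.depth], fun y => ?_⟩
        change cond (y (.inl (.inr s'))) true false =
          if lc s' = 0 then y (.inl (.inr s')) else y (.inr s')
        rw [if_pos h0]
        cases y (.inl (.inr s')) <;> rfl
      · refine ⟨.node (.inr s') (.leaf false) (.leaf true),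
          by simp [Pool.Agent.H68.AC.DT.depth], fun y => ?_⟩
        change cond (y (.inr s')) true false =
          if lc s' = 0 then y (.inl (.inr s')) else y (.inr s')
        rw [if_neg h0]
        cases y (.inr s') <;> rfl
    | blk s' i v => exact ⟨.leaf (P s' i v), by simp [Pool.Agent.H68.AC.DT.depth], fun y => rfl⟩

end Pool.Agent.H3.GS.MEH
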